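import Pool.Agent.H85.AECT.Compact

set_option autoImplicit false

/-!
# Automorphism groups of closures: counting isomorphisms
-/

open FirstOrder FirstOrder.Language Cardinal

namespace Pool.Agent.H81.FA

universe w

open Pool.Agent.H85.AECT Pool.Agent.H85.AECT.AEC

variable {L : FirstOrder.Language.{w, w}} {K : AEC L}

/-- The automorphisms of the substructure `C` of `N` which fix every element of `C` lying
in `A`. -/
def Auts {N : Type w} [L.Structure N] (C : L.Substructure N) (A : Set N) : Set (C ≃[L] C) :=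
  {g | ∀ x : C, (x : N) ∈ A → g x = x}

/-- Closures over models of size at most `θ` have few automorphisms: for all strong substructures
`M` of `N` of size at most `θ` and every `a` in `N` the closure `C` of `M ∪ {a}` has at most `θ`
automorphisms over `M ∪ {a}`, and there is a set `X` of fewer than `cf θ` elements of `C` such that
fewer than `θ` automorphisms of `C` fix `M ∪ {a} ∪ X` pointwise. -/
def FewAuts (K : AEC L) (θ : Cardinal.{w}) : Prop :=
  ∀ (N : Type w) [L.Structure N] (M : L.Substructure N) (a : N), K.Strong N M → #M ≤ θ →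
    #(Auts (K.cl (insert a (M : Set N))) (insert a (M : Set N))) ≤ θ ∧
    ∃ X : Set N, X ⊆ K.cl (insert a (M : Set N)) ∧ #X < θ.ord.cof ∧
      #(Auts (K.cl (insert a (M : Set N))) (insert a (M : Set N) ∪ X)) < θ

/-- Closures over models of size at most `θ` have fewer than `θ` automorphisms over fewer than `κ`
elements: for all strong substructures `M` of `N` of size at most `θ` and every `a` in `N` there is
a set `X` of fewer than `κ` elements of the closure `C` of `M ∪ {a}` such that fewer than `θ`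
automorphisms of `C` fix `M ∪ {a} ∪ X` pointwise. -/
def FewAutsOver (K : AEC L) (κ θ : Cardinal.{w}) : Prop :=
  ∀ (N : Type w) [L.Structure N] (M : L.Substructure N) (a : N), K.Strong N M → #M ≤ θ →
    ∃ X : Set N, X ⊆ K.cl (insert a (M : Set N)) ∧ #X < κ ∧
      #(Auts (K.cl (insert a (M : Set N))) (insert a (M : Set N) ∪ X)) < θ

theorem few_exists {M N : Type w} [L.Structure M] [L.Structure N] {f : M ↪[L] N} {a : N}
    {θ : Cardinal.{w}} (hFA : FewAuts K θ) (hf : K.StrongEmb f)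
    {Q : L.Substructure M} (hQ : K.Strong M Q) (hQc : #Q ≤ θ) :
    #(Auts (K.clOver f a Q) (insert a (f '' (Q : Set M)))) ≤ θ ∧
    ∃ X : Set N, X ⊆ K.clOver f a Q ∧ #X < θ.ord.cof ∧
      #(Auts (K.clOver f a Q) (insert a (f '' (Q : Set M)) ∪ X)) < θ := by
  have h1 : K.Strong N (Q.map f.toHom) := hf.map hQ
  have h2 : #(Q.map f.toHom : L.Substructure N) ≤ θ := by
    refine le_trans ?_ hQc
    exact Cardinal.mk_image_le (f := f) (s := (Q : Set M))
  obtain ⟨hC, X, hX, hXc, hA⟩ := hFA N (Q.map f.toHom) a h1 h2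
  exact ⟨hC, X, hX, hXc, hA⟩

/-- Counting automorphisms by their values on `X`. -/
theorem fewAuts_of_over {κ θ : Cardinal.{w}} (hLS : K.LS ≤ θ) (hpow : ∀ ν < κ, θ ^ ν ≤ θ)
    (hFA : FewAutsOver K κ θ) : FewAuts K θ := by
  classical
  have hθ : ℵ₀ ≤ θ := (ls_spec (K := K)).1.trans hLS
  intro N _ M a hM hMc
  obtain ⟨X, hX, hXc, hA⟩ := hFA N M a hM hMc
  refine ⟨?_, X, hX, ?_, hA⟩
  · have hC : #(K.cl (insert a (M : Set N))) ≤ θ := by
      refine (mk_cl_le (K.mem_of_strong _ _ hM).1 _).trans ?_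
      have h1 : #(insert a (M : Set N) : Set N) ≤ θ := by
        refine Cardinal.mk_insert_le.trans ?_
        exact (add_le_add hMc (Cardinal.one_le_aleph0.trans hθ)).trans
          (Cardinal.add_eq_self hθ).le
      exact (add_le_add h1 hLS).trans (Cardinal.add_eq_self hθ).le
    let F : Auts (K.cl (insert a (M : Set N))) (insert a (M : Set N)) →
        (X → K.cl (insert a (M : Set N))) := fun g x => g.1 ⟨x, hX x.2⟩
    have h1 : #(X → K.cl (insert a (M : Set N))) ≤ θ := by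
      rw [← Cardinal.power_def]
      exact (Cardinal.power_le_power_right hC).trans (hpow _ hXc)
    have h2 : ∀ u : X → K.cl (insert a (M : Set N)), #(F ⁻¹' {u}) ≤ θ := by
      intro u
      rcases Set.eq_empty_or_nonempty (F ⁻¹' {u}) with hemp | ⟨e₀, he₀⟩
      · rw [hemp]
        simp
      · have h3 : ∀ e : F ⁻¹' {u}, e₀.1.symm.comp e.1.1 ∈
            Auts (K.cl (insert a (M : Set N))) (insert a (M : Set N) ∪ X) := by
          intro e x hx
          have h2 : e.1.1 x = e₀.1 x := by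
            rcases hx with hx | hx
            · rw [e.1.2 x hx, e₀.2 x hx]
            · have h4 : F e.1 = F e₀ := by
                have h5 : F e.1 = u := e.2
                have h6 : F e₀ = u := he₀
                rw [h5, h6]
              exact congrFun h4 ⟨x, hx⟩
          show e₀.1.symm (e.1.1 x) = x
          rw [h2]
          exact Language.Equiv.symm_apply_apply _ _
        refine le_trans ?_ hA.le
        refine Cardinal.mk_le_of_injective (f := fun e : F ⁻¹' {u} =>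
          (⟨e₀.1.symm.comp e.1.1, h3 e⟩ :
            Auts (K.cl (insert a (M : Set N))) (insert a (M : Set N) ∪ X))) ?_
        intro e e' hee
        have h4 : e₀.1.symm.comp e.1.1 = e₀.1.symm.comp e'.1.1 := congrArg Subtype.val hee
        apply Subtype.ext
        apply Subtype.ext
        apply Language.Equiv.ext
        intro x
        have h5 : e₀.1.symm (e.1.1 x) = e₀.1.symm (e'.1.1 x) :=
          congrArg (fun g : K.cl (insert a (M : Set N)) ≃[L] K.cl (insert a (M : Set N)) => g x) h4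
        exact e₀.1.symm.injective h5
    refine (Cardinal.mk_le_mk_mul_of_mk_preimage_le F h2).trans ?_
    exact (mul_le_mul' h1 le_rfl).trans (Cardinal.mul_eq_self hθ).le
  · by_contra hcon
    push Not at hcon
    have h1 := Cardinal.lt_power_cof_ord hθ
    have h2 : θ ^ θ.ord.cof ≤ θ ^ #X :=
      Cardinal.power_le_power_left (Cardinal.aleph0_pos.trans_le hθ).ne' hcon
    exact absurd (h2.trans (hpow _ hXc)) (not_le.mpr h1)

section context

variable {M N₁ N₂ : Type w} [L.Structure M] [L.Structure N₁] [L.Structure N₂]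
  {f₁ : M ↪[L] N₁} {a₁ : N₁} {f₂ : M ↪[L] N₂} {a₂ : N₂} {κ θ : Cardinal.{w}}

theorem comp_mem_auts {X : Set N₁} {Q : L.Substructure M}
    {e e' : K.clOver f₁ a₁ Q ≃[L] K.clOver f₂ a₂ Q}
    (he : e ∈ K.Isos f₁ a₁ f₂ a₂ Q) (he' : e' ∈ K.Isos f₁ a₁ f₂ a₂ Q)
    (hX : ∀ x : K.clOver f₁ a₁ Q, (x : N₁) ∈ X → e' x = e x) :
    e.symm.comp e' ∈ Auts (K.clOver f₁ a₁ Q) (insert a₁ (f₁ '' (Q : Set M)) ∪ X) := by
  intro x hx
  have h2 : e' x = e x := by
    rcases hx with hx | hx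
    · apply Subtype.ext
      rcases hx with hx | ⟨m, hm, hx⟩
      · rw [he.2 x hx, he'.2 x hx]
      · rw [he.1 m hm x hx.symm, he'.1 m hm x hx.symm]
    · exact hX x hx
  show e.symm (e' x) = x
  rw [h2]
  exact Language.Equiv.symm_apply_apply _ _

/-- There are at most `θ` isomorphisms of closures over a small model. -/
theorem mk_isos_le (hFA : FewAuts K θ) (hf₁ : K.StrongEmb f₁) (Q : K.Sml M θ) :
    #(K.Isos f₁ a₁ f₂ a₂ Q.1) ≤ θ := by
  classical
  have hA := (few_exists (a := a₁) hFA hf₁ Q.2.1 Q.2.2).1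
  rcases Set.eq_empty_or_nonempty (K.Isos f₁ a₁ f₂ a₂ Q.1) with hemp | ⟨e₀, he₀⟩
  · rw [hemp]
    simp
  · have h3 : ∀ e : K.Isos f₁ a₁ f₂ a₂ Q.1, e₀.symm.comp e.1 ∈
        Auts (K.clOver f₁ a₁ Q.1) (insert a₁ (f₁ '' (Q.1 : Set M))) := by
      intro e x hx
      exact comp_mem_auts (X := ∅) he₀ e.2 (fun x hx => absurd hx (Set.notMem_empty _)) x
        (Or.inl hx)
    refine le_trans ?_ hA
    refine Cardinal.mk_le_of_injective (f := fun e : K.Isos f₁ a₁ f₂ a₂ Q.1 =>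
      (⟨e₀.symm.comp e.1, h3 e⟩ :
        Auts (K.clOver f₁ a₁ Q.1) (insert a₁ (f₁ '' (Q.1 : Set M))))) ?_
    intro e e' hee
    have h4 : e₀.symm.comp e.1 = e₀.symm.comp e'.1 := congrArg Subtype.val hee
    apply Subtype.ext
    apply Language.Equiv.ext
    intro x
    have h5 : e₀.symm (e.1 x) = e₀.symm (e'.1 x) :=
      congrArg (fun g : K.clOver f₁ a₁ Q.1 ≃[L] K.clOver f₁ a₁ Q.1 => g x) h4
    exact e₀.symm.injective h5

/-- `e'` extends `e`. -/
def Extends {Q R : L.Substructure M} (e : K.clOver f₁ a₁ Q ≃[L] K.clOver f₂ a₂ Q)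
    (e' : K.clOver f₁ a₁ R ≃[L] K.clOver f₂ a₂ R) : Prop :=
  ∀ (x : K.clOver f₁ a₁ Q) (y : K.clOver f₁ a₁ R), (x : N₁) = y → (e x : N₂) = e' y

theorem Extends.mid {Q R S : L.Substructure M} (hRS : R ≤ S)
    {e : K.clOver f₁ a₁ Q ≃[L] K.clOver f₂ a₂ Q}
    {e' : K.clOver f₁ a₁ R ≃[L] K.clOver f₂ a₂ R}
    {e'' : K.clOver f₁ a₁ S ≃[L] K.clOver f₂ a₂ S}
    (h1 : Extends e e'') (h2 : Extends e' e'') : Extends e e' := by
  intro x y hxy
  rw [h1 x ⟨y, clOver_mono hRS y.2⟩ hxy, h2 y ⟨y, clOver_mono hRS y.2⟩ rfl]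

theorem Extends.trans {Q R S : L.Substructure M} (hQR : Q ≤ R)
    {e : K.clOver f₁ a₁ Q ≃[L] K.clOver f₂ a₂ Q}
    {e' : K.clOver f₁ a₁ R ≃[L] K.clOver f₂ a₂ R}
    {e'' : K.clOver f₁ a₁ S ≃[L] K.clOver f₂ a₂ S}
    (h1 : Extends e e') (h2 : Extends e' e'') : Extends e e'' := by
  intro x z hxz
  rw [h1 x ⟨x, clOver_mono hQR x.2⟩ rfl, h2 ⟨x, clOver_mono hQR x.2⟩ z hxz]

/-- The isomorphisms of closures over `Q` which extend to all larger small models. -/
def Pers (Q : K.Sml M θ) : Set (K.clOver f₁ a₁ Q.1 ≃[L] K.clOver f₂ a₂ Q.1) :=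
  {e | e ∈ K.Isos f₁ a₁ f₂ a₂ Q.1 ∧ ∀ R : K.Sml M θ, Q.1 ≤ R.1 →
    ∃ e' ∈ K.Isos f₁ a₁ f₂ a₂ R.1, Extends e e'}

/-- Persistent isomorphisms exist. -/
theorem exists_pers (hK : K.HasClosures) (hAP : K.Amalgamation) (hLS : K.LS ≤ θ)
    (hf₁ : K.StrongEmb f₁) (hf₂ : K.StrongEmb f₂) (Q : K.Sml M θ)
    (hcard : #(K.Isos f₁ a₁ f₂ a₂ Q.1) ≤ θ)
    (T : Set (K.clOver f₁ a₁ Q.1 ≃[L] K.clOver f₂ a₂ Q.1))
    (hT : ∀ R : K.Sml M θ, Q.1 ≤ R.1 → ∃ e ∈ K.Isos f₁ a₁ f₂ a₂ R.1,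
      ∃ e' ∈ K.Isos f₁ a₁ f₂ a₂ Q.1, e' ∈ T ∧ Extends e' e) :
    ∃ e' ∈ T, e' ∈ Pers (f₁ := f₁) (a₁ := a₁) (f₂ := f₂) (a₂ := a₂) Q := by
  classical
  have hM : K.Mem M := hf₁.mem_left
  have hθ : ℵ₀ ≤ θ := (ls_spec (K := K)).1.trans hLS
  by_contra hcon
  push Not at hcon
  have h1 : ∀ e : K.Isos f₁ a₁ f₂ a₂ Q.1, ∃ R : K.Sml M θ, Q.1 ≤ R.1 ∧
      (e.1 ∈ T → ∀ e'' ∈ K.Isos f₁ a₁ f₂ a₂ R.1, ¬ Extends e.1 e'') := by
    intro e
    by_cases he : e.1 ∈ T
    · have h2 := hcon e.1 he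
      unfold Pers at h2
      simp only [Set.mem_ofPred_eq, not_and, not_forall, not_exists] at h2
      obtain ⟨R, hR, h3⟩ := h2 e.2
      exact ⟨R, hR, fun _ e'' he'' h4 => h3 e'' he'' h4⟩
    · exact ⟨Q, le_rfl, fun h => absurd h he⟩
  choose R hQR hR using h1
  obtain ⟨S, hS, _⟩ := exists_ub hM hLS (insert Q (Set.range R)) (by
    refine Cardinal.mk_insert_le.trans ?_
    exact (add_le_add (Cardinal.mk_range_le.trans hcard)
      (Cardinal.one_le_aleph0.trans hθ)).trans (Cardinal.add_eq_self hθ).le) ∅ (by simp)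
  have hQS : Q.1 ≤ S.1 := hS Q (Set.mem_insert _ _)
  obtain ⟨e, he, e', he'I, he'T, hext⟩ := hT S hQS
  have hRS : (R ⟨e', he'I⟩).1 ≤ S.1 := hS _ (Set.mem_insert_of_mem _ ⟨_, rfl⟩)
  obtain ⟨e₁, he₁, hext₁⟩ := isos_restrict hK hAP hf₁ hf₂ (R ⟨e', he'I⟩).2.1 S.2.1 hRS he
  exact hR ⟨e', he'I⟩ he'T e₁ he₁ (Extends.mid hRS hext hext₁)

/-- The restriction of a persistent isomorphism is persistent. -/
theorem pers_restrict (hK : K.HasClosures) (hAP : K.Amalgamation) (hLS : K.LS ≤ θ)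
    (hf₁ : K.StrongEmb f₁) (hf₂ : K.StrongEmb f₂) {Q R : K.Sml M θ} (hQR : Q.1 ≤ R.1)
    {e : K.clOver f₁ a₁ R.1 ≃[L] K.clOver f₂ a₂ R.1} (he : e ∈ Pers R) :
    ∃ e' ∈ Pers Q, Extends e' e := by
  have hM : K.Mem M := hf₁.mem_left
  have hθ : ℵ₀ ≤ θ := (ls_spec (K := K)).1.trans hLS
  obtain ⟨e', he', hext⟩ := isos_restrict hK hAP hf₁ hf₂ Q.2.1 R.2.1 hQR he.1
  refine ⟨e', ⟨he', ?_⟩, hext⟩
  intro S hQS
  obtain ⟨U, hU, _⟩ := exists_ub hM hLS {R, S} (by
    refine Cardinal.mk_insert_le.trans ?_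
    rw [Cardinal.mk_singleton]
    exact (add_le_add (Cardinal.one_le_aleph0.trans hθ)
      (Cardinal.one_le_aleph0.trans hθ)).trans (Cardinal.add_eq_self hθ).le) ∅ (by simp)
  have hRU : R.1 ≤ U.1 := hU R (by simp)
  have hSU : S.1 ≤ U.1 := hU S (by simp)
  obtain ⟨u, hu, hextu⟩ := he.2 U hRU
  obtain ⟨s, hs, hexts⟩ := isos_restrict hK hAP hf₁ hf₂ S.2.1 U.2.1 hSU hu
  refine ⟨s, hs, ?_⟩
  exact Extends.mid hSU (Extends.trans hQR hext hextu) hexts

end context

end Pool.Agent.H81.FA
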