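import Mathlib

set_option autoImplicit false

/-!
# Powers of strong limit cardinals
-/

open Cardinal Ordinal

namespace Pool.Agent.H81.FA

universe w

theorem power_le_of_lt_cof {θ ν : Cardinal.{w}} (hθ : IsStrongLimit θ) (hν : ν < θ.ord.cof) :
    θ ^ ν ≤ θ := by
  induction θ using Cardinal.inductionOn with | mk H
  induction ν using Cardinal.inductionOn with | mk V
  have h0 : ℵ₀ ≤ #H := hθ.aleph0_le
  have hVH : #V ≤ #H := hν.le.trans (Ordinal.cof_ord_le _)
  rcases isEmpty_or_nonempty V with hV | hV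
  · rw [Cardinal.mk_eq_zero V, Cardinal.power_zero]
    exact Cardinal.one_le_aleph0.trans h0
  have hc : #(V × H) = #H := by
    rw [Cardinal.mk_prod, Cardinal.lift_id, Cardinal.lift_id]
    exact Cardinal.mul_eq_right h0 hVH (Cardinal.mk_ne_zero V)
  rw [Cardinal.power_def]
  have hs : ∀ g : V → H, #({p : V × H | g p.1 = p.2} : Set (V × H)) < (#(V × H)).ord.cof := by
    intro g
    have h1 : ({p : V × H | g p.1 = p.2} : Set (V × H)) ⊆ Set.range fun v => (v, g v) := by
      rintro ⟨v, x⟩ hx
      exact ⟨v, Prod.ext rfl hx⟩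
    rw [hc]
    exact ((Cardinal.mk_le_mk_of_subset h1).trans Cardinal.mk_range_le).trans_lt hν
  calc #(V → H) ≤ #{s : Set (V × H) // #s < (#(V × H)).ord.cof} := by
        refine Cardinal.mk_le_of_injective (f := fun g : V → H =>
          (⟨{p | g p.1 = p.2}, hs g⟩ : {s : Set (V × H) // #s < (#(V × H)).ord.cof})) ?_
        intro g g' hg
        funext v
        have h1 : ({p : V × H | g p.1 = p.2} : Set (V × H)) = {p | g' p.1 = p.2} :=
          congrArg Subtype.val hg
        have h2 : (v, g v) ∈ ({p : V × H | g' p.1 = p.2} : Set (V × H)) := by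
          rw [← h1]
          rfl
        exact (h2 : g' v = g v).symm
    _ = #(V × H) := Cardinal.mk_subset_mk_lt_cof (by rw [hc]; exact hθ.isStrongPrelimit)
    _ = #H := hc

theorem cof_beth {c : Cardinal.{w}} (hc : c.IsRegular) :
    (Cardinal.beth c.ord).ord.cof = c := by
  have h1 : Order.IsNormal fun o : Ordinal.{w} => (Cardinal.beth o).ord :=
    Cardinal.isNormal_ord.comp Cardinal.isNormal_beth
  rw [Ordinal.cof_map_of_isNormal h1 (Cardinal.isSuccLimit_ord hc.aleph0_le), hc.cof_ord]

end Pool.Agent.H81.FA
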