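import Pool.Agent.H81.FA.Stage

set_option autoImplicit false

/-!
# Few automorphisms imply tameness
-/

open FirstOrder FirstOrder.Language Cardinal

namespace Pool.Agent.H81.FA

universe w

open Pool.Agent.H85.AECT Pool.Agent.H85.AECT.AEC

variable {L : FirstOrder.Language.{w, w}} {K : AEC L}

section context

variable {M N₁ N₂ : Type w} [L.Structure M] [L.Structure N₁] [L.Structure N₂]
  {f₁ : M ↪[L] N₁} {a₁ : N₁} {f₂ : M ↪[L] N₂} {a₂ : N₂} {θ : Cardinal.{w}}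

theorem exists_ub_two (hM : K.Mem M) (hLS : K.LS ≤ θ) (Q R : K.Sml M θ) :
    ∃ S : K.Sml M θ, Q.1 ≤ S.1 ∧ R.1 ≤ S.1 := by
  have hθ : ℵ₀ ≤ θ := (ls_spec (K := K)).1.trans hLS
  obtain ⟨S, hS, _⟩ := exists_ub hM hLS {Q, R} (by
    refine Cardinal.mk_insert_le.trans ?_
    rw [Cardinal.mk_singleton]
    exact (add_le_add (Cardinal.one_le_aleph0.trans hθ)
      (Cardinal.one_le_aleph0.trans hθ)).trans (Cardinal.add_eq_self hθ).le) ∅ (by simp)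
  exact ⟨S, hS Q (by simp), hS R (by simp)⟩

/-- Coherent isomorphisms of closures over small models glue. -/
theorem glue (hK : K.HasClosures) (hLS : K.LS ≤ θ)
    (hf₁ : K.StrongEmb f₁) (hf₂ : K.StrongEmb f₂) (Q₀ : K.Sml M θ)
    (e : (Q : K.Sml M θ) → (K.clOver f₁ a₁ Q.1 ≃[L] K.clOver f₂ a₂ Q.1))
    (he : ∀ Q, Q₀.1 ≤ Q.1 → e Q ∈ K.Isos f₁ a₁ f₂ a₂ Q.1)
    (hcoh : ∀ Q R : K.Sml M θ, Q₀.1 ≤ Q.1 → Q.1 ≤ R.1 → Extends (e Q) (e R)) :
    (K.Isos f₁ a₁ f₂ a₂ (⊤ : L.Substructure M)).Nonempty := by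
  classical
  have hM : K.Mem M := hf₁.mem_left
  have hθ : ℵ₀ ≤ θ := (ls_spec (K := K)).1.trans hLS
  have hcov : ∀ s : Finset (K.clOver f₁ a₁ (⊤ : L.Substructure M)),
      ∃ R : K.Sml M θ, Q₀.1 ≤ R.1 ∧ ∀ x ∈ s, (x : N₁) ∈ K.clOver f₁ a₁ R.1 := fun s =>
    exists_small_of_finite hK hLS hf₁ Q₀ s
  have hcov1 : ∀ x : K.clOver f₁ a₁ (⊤ : L.Substructure M),
      ∃ R : K.Sml M θ, Q₀.1 ≤ R.1 ∧ (x : N₁) ∈ K.clOver f₁ a₁ R.1 := by
    intro x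
    obtain ⟨R, hR, hs⟩ := hcov {x}
    exact ⟨R, hR, hs x (Finset.mem_singleton_self x)⟩
  choose S hS hxS using hcov1
  obtain ⟨χ, hχ⟩ : ∃ χ : K.clOver f₁ a₁ (⊤ : L.Substructure M) → N₂,
      ∀ R : K.Sml M θ, Q₀.1 ≤ R.1 → ∀ (x : K.clOver f₁ a₁ (⊤ : L.Substructure M))
        (y : K.clOver f₁ a₁ R.1), (y : N₁) = x → (e R y : N₂) = χ x := by
    refine ⟨fun x => e (S x) ⟨x, hxS x⟩, ?_⟩
    intro R hR x y hxy
    obtain ⟨U, hSU, hRU⟩ := exists_ub_two hM hLS (S x) R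
    have hxU : (x : N₁) ∈ K.clOver f₁ a₁ U.1 := clOver_mono hSU (hxS x)
    have h1 := hcoh (S x) U (hS x) hSU ⟨x, hxS x⟩ ⟨x, hxU⟩ rfl
    have h2 := hcoh R U hR hRU y ⟨x, hxU⟩ hxy
    show (e R y : N₂) = e (S x) ⟨x, hxS x⟩
    rw [h1, h2]
  have hmem : ∀ x, χ x ∈ K.clOver f₂ a₂ (⊤ : L.Substructure M) := by
    intro x
    rw [← hχ (S x) (hS x) x ⟨x, hxS x⟩ rfl]
    exact clOver_mono le_top (e (S x) ⟨x, hxS x⟩).2
  let φ : K.clOver f₁ a₁ (⊤ : L.Substructure M) → K.clOver f₂ a₂ (⊤ : L.Substructure M) :=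
    fun x => ⟨χ x, hmem x⟩
  have hinj : Function.Injective φ := by
    intro x y hxy
    have hxy' : χ x = χ y := congrArg Subtype.val hxy
    obtain ⟨R, hR, hs⟩ := hcov {x, y}
    have h1 := hχ R hR x ⟨x, hs x (by simp)⟩ rfl
    have h2 := hχ R hR y ⟨y, hs y (by simp)⟩ rfl
    have h3 : e R ⟨x, hs x (by simp)⟩ = e R ⟨y, hs y (by simp)⟩ :=
      Subtype.ext (by rw [h1, h2, hxy'])
    have h4 := (e R).injective h3
    exact Subtype.ext (congrArg (fun z : K.clOver f₁ a₁ R.1 => (z : N₁)) h4)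
  have hsurj : Function.Surjective φ := by
    intro y
    obtain ⟨R, hR, hyR⟩ := exists_small_of_finite (f₁ := f₂) (a₁ := a₂) hK hLS hf₂ Q₀ {y}
    have hy : (y : N₂) ∈ K.clOver f₂ a₂ R.1 := hyR y (Finset.mem_singleton_self y)
    obtain ⟨c, hc⟩ : ∃ c, e R c = ⟨(y : N₂), hy⟩ := ⟨(e R).symm ⟨y, hy⟩, by simp⟩
    have hct : (c : N₁) ∈ K.clOver f₁ a₁ (⊤ : L.Substructure M) := clOver_mono le_top c.2
    refine ⟨⟨c, hct⟩, ?_⟩
    have h1 := hχ R hR ⟨c, hct⟩ c rfl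
    apply Subtype.ext
    show χ ⟨c, hct⟩ = y
    rw [← h1, hc]
  refine ⟨⟨_root_.Equiv.ofBijective φ ⟨hinj, hsurj⟩, ?_, ?_⟩, ?_, ?_⟩
  · intro n F x
    let s : Finset (K.clOver f₁ a₁ (⊤ : L.Substructure M)) :=
      insert (Structure.funMap F x) (Finset.univ.image x)
    obtain ⟨R, hR, hs⟩ := hcov s
    have hx : ∀ i, x i ∈ s := fun i =>
      Finset.mem_insert_of_mem (Finset.mem_image_of_mem _ (Finset.mem_univ i))
    let y : Fin n → K.clOver f₁ a₁ R.1 := fun i => ⟨x i, hs _ (hx i)⟩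
    have h1 : ((Structure.funMap F y : K.clOver f₁ a₁ R.1) : N₁) =
        ((Structure.funMap F x : K.clOver f₁ a₁ (⊤ : L.Substructure M)) : N₁) := rfl
    have h2 := hχ R hR _ (Structure.funMap F y) h1
    have h3 : e R (Structure.funMap F y) = Structure.funMap F (e R ∘ y) := (e R).map_fun F y
    apply Subtype.ext
    show χ (Structure.funMap F x) = _
    rw [← h2, h3]
    show Structure.funMap F (fun i => ((e R (y i) : K.clOver f₂ a₂ R.1) : N₂)) =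
      Structure.funMap F (fun i => χ (x i))
    congr 1
    funext i
    exact hχ R hR _ (y i) rfl
  · intro n F x
    let s : Finset (K.clOver f₁ a₁ (⊤ : L.Substructure M)) := Finset.univ.image x
    obtain ⟨R, hR, hs⟩ := hcov s
    have hx : ∀ i, x i ∈ s := fun i => Finset.mem_image_of_mem _ (Finset.mem_univ i)
    let y : Fin n → K.clOver f₁ a₁ R.1 := fun i => ⟨x i, hs _ (hx i)⟩
    have h3 : Structure.RelMap F (e R ∘ y) ↔ Structure.RelMap F y := (e R).map_rel F y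
    have h4 : (fun i => ((e R (y i) : K.clOver f₂ a₂ R.1) : N₂)) = fun i => χ (x i) := by
      funext i
      exact hχ R hR _ (y i) rfl
    have h5 : Structure.RelMap F (fun i => ((e R (y i) : K.clOver f₂ a₂ R.1) : N₂)) ↔
        Structure.RelMap F (fun i => (x i : N₁)) := h3
    rw [h4] at h5
    exact h5
  · intro m _ x hx
    obtain ⟨R₀, _, hmR₀⟩ := exists_ub hM hLS {Q₀}
      (by rw [Cardinal.mk_singleton]; exact Cardinal.one_le_aleph0.trans hθ) {m}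
      (by rw [Cardinal.mk_singleton]; exact Cardinal.one_le_aleph0.trans hθ)
    obtain ⟨R, hSR, hR₀R⟩ := exists_ub_two hM hLS (S x) R₀
    have hR : Q₀.1 ≤ R.1 := (hS x).trans hSR
    have hxR : (x : N₁) ∈ K.clOver f₁ a₁ R.1 := clOver_mono hSR (hxS x)
    have h1 := hχ R hR x ⟨x, hxR⟩ rfl
    have h2 := (he R hR).1 m (hR₀R (hmR₀ rfl)) ⟨x, hxR⟩ hx
    show χ x = f₂ m
    rw [← h1, h2]
  · intro x hx
    have h1 := hχ (S x) (hS x) x ⟨x, hxS x⟩ rfl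
    have h2 := (he (S x) (hS x)).2 ⟨x, hxS x⟩ hx
    show χ x = a₂
    rw [← h1, h2]

end context

/-- **Main theorem**: an AEC with amalgamation and closures over models whose closures over
models of size at most `θ` have few automorphisms is `(θ, ∞)`-tame. -/
theorem tame_of_fewAuts (hK : K.HasClosures) (hAP : K.Amalgamation)
    {θ : Cardinal.{w}} (hLS : K.LS ≤ θ) (hFA : FewAuts K θ) : K.Tame θ := by
  classical
  intro M N₁ N₂ _ _ _ f₁ a₁ f₂ a₂ hf₁ hf₂ hsame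
  have hM : K.Mem M := hf₁.mem_left
  obtain ⟨Q₀, hQ₀⟩ := exists_stage (a₁ := a₁) (f₂ := f₂) (a₂ := a₂) hK hLS hFA hf₁
  have hcard : ∀ Q : K.Sml M θ, #(K.Isos f₁ a₁ f₂ a₂ Q.1) ≤ θ := fun Q =>
    mk_isos_le hFA hf₁ Q
  obtain ⟨e₀, _, he₀⟩ := exists_pers hK hAP hLS hf₁ hf₂ Q₀ (hcard Q₀) Set.univ (by
    intro R hR
    obtain ⟨e, he⟩ := isos_nonempty hK hf₁ hf₂ R.2.1 (hsame R.1 R.2.1 R.2.2)
    obtain ⟨e', he', hext⟩ := isos_restrict hK hAP hf₁ hf₂ Q₀.2.1 R.2.1 hR he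
    exact ⟨e, he, e', he', trivial, hext⟩)
  have hex : ∀ Q : K.Sml M θ, ∃ e : K.clOver f₁ a₁ Q.1 ≃[L] K.clOver f₂ a₂ Q.1,
      Q₀.1 ≤ Q.1 → e ∈ Pers Q ∧ Extends e₀ e := by
    intro Q
    by_cases hQ : Q₀.1 ≤ Q.1
    · obtain ⟨e, heT, he⟩ := exists_pers hK hAP hLS hf₁ hf₂ Q (hcard Q) {e | Extends e₀ e} (by
        intro R hR
        obtain ⟨e, he, hext⟩ := he₀.2 R (hQ.trans hR)
        obtain ⟨e', he', hext'⟩ := isos_restrict hK hAP hf₁ hf₂ Q.2.1 R.2.1 hR he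
        exact ⟨e, he, e', he', Extends.mid hR hext hext', hext'⟩)
      exact ⟨e, fun _ => ⟨he, heT⟩⟩
    · obtain ⟨e, _⟩ := isos_nonempty hK hf₁ hf₂ Q.2.1 (hsame Q.1 Q.2.1 Q.2.2)
      exact ⟨e, fun h => absurd h hQ⟩
  choose e he using hex
  have hcoh : ∀ Q R : K.Sml M θ, Q₀.1 ≤ Q.1 → Q.1 ≤ R.1 → Extends (e Q) (e R) := by
    intro Q R hQ hQR
    obtain ⟨e', he', hext⟩ := pers_restrict hK hAP hLS hf₁ hf₂ hQR (he R (hQ.trans hQR)).1
    have h1 : Extends e₀ e' := Extends.mid hQR (he R (hQ.trans hQR)).2 hext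
    have h2 : e Q = e' := by
      apply hQ₀ Q hQ (e Q) (he Q hQ).1 e' he'
      intro x hx
      apply Subtype.ext
      rw [← (he Q hQ).2 ⟨x, hx⟩ x rfl, ← h1 ⟨x, hx⟩ x rfl]
    rw [h2]
    exact hext
  obtain ⟨u, hu⟩ := glue hK hLS hf₁ hf₂ Q₀ e (fun Q hQ => (he Q hQ).1.1) hcoh
  exact sameType_of_isos hK hAP hf₁ hf₂ hu

end Pool.Agent.H81.FA
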