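import Pool.Agent.H81.FA.Basic

set_option autoImplicit false

/-!
# Classes whose closures over models add few elements
-/

open FirstOrder FirstOrder.Language Cardinal

namespace Pool.Agent.H81.FA

universe w

open Pool.Agent.H85.AECT Pool.Agent.H85.AECT.AEC

variable {L : FirstOrder.Language.{w, w}} {K : AEC L}

/-- Closures over models of size at most `θ` add fewer than `θ` elements: for all strong
substructures `M` of `N` of size at most `θ` and every `a` in `N` fewer than `θ` elements of the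
closure of `M ∪ {a}` are outside `M`. -/
def SmallClosures (K : AEC L) (θ : Cardinal.{w}) : Prop :=
  ∀ (N : Type w) [L.Structure N] (M : L.Substructure N) (a : N), K.Strong N M → #M ≤ θ →
    #({x : N | x ∈ K.cl (insert a (M : Set N)) ∧ x ∉ M} : Set N) < θ

theorem over_of_smallClosures {θ : Cardinal.{w}} (hθ : IsStrongLimit θ)
    (h : SmallClosures K θ) : FewAutsOver K 1 θ := by
  classical
  intro N _ M a hM hMc
  refine ⟨∅, Set.empty_subset _, by simp, ?_⟩
  let D : Set N := {x : N | x ∈ K.cl (insert a (M : Set N)) ∧ x ∉ M}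
  have hD : #D < θ := h N M a hM hMc
  have hmap : ∀ g : Auts (K.cl (insert a (M : Set N))) (insert a (M : Set N) ∪ ∅), ∀ x : D,
      (g.1 ⟨x.1, x.2.1⟩ : N) ∈ D := by
    intro g x
    refine ⟨(g.1 ⟨x.1, x.2.1⟩).2, fun hx => ?_⟩
    have h1 : g.1 (g.1 ⟨x.1, x.2.1⟩) = g.1 ⟨x.1, x.2.1⟩ := g.2 _ (Or.inl (Or.inr hx))
    have h2 : g.1 ⟨x.1, x.2.1⟩ = ⟨x.1, x.2.1⟩ := g.1.injective h1
    rw [h2] at hx
    exact x.2.2 hx
  let F : Auts (K.cl (insert a (M : Set N))) (insert a (M : Set N) ∪ ∅) → (D → D) :=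
    fun g x => ⟨g.1 ⟨x.1, x.2.1⟩, hmap g x⟩
  have hF : Function.Injective F := by
    intro g g' hgg
    apply Subtype.ext
    apply Language.Equiv.ext
    intro x
    by_cases hx : (x : N) ∈ M
    · rw [g.2 x (Or.inl (Or.inr hx)), g'.2 x (Or.inl (Or.inr hx))]
    · have h1 := congrFun hgg ⟨x.1, x.2, hx⟩
      exact Subtype.ext (congrArg (fun y : D => (y : N)) h1)
  rcases lt_or_ge (#D) ℵ₀ with hfin | hinf
  · have h1 : #(D → D) < ℵ₀ := by
      rw [← Cardinal.power_def]
      exact Cardinal.power_lt_aleph0 hfin hfin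
    exact ((Cardinal.mk_le_of_injective hF).trans_lt h1).trans_le hθ.aleph0_le
  · have h1 : #(D → D) = 2 ^ #D := by
      rw [← Cardinal.power_def]
      exact Cardinal.power_self_eq hinf
    exact (Cardinal.mk_le_of_injective hF).trans_lt (h1 ▸ hθ.isStrongPrelimit hD)

end Pool.Agent.H81.FA
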