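import Pool.Agent.H81.FA.Basic

set_option autoImplicit false

/-!
# Uniqueness of persistent extensions above some small model
-/

open FirstOrder FirstOrder.Language Cardinal

namespace Pool.Agent.H81.FA

universe w

open Pool.Agent.H85.AECT Pool.Agent.H85.AECT.AEC

variable {L : FirstOrder.Language.{w, w}} {K : AEC L}

theorem exists_bound_of_lt_cof {θ : Cardinal.{w}} (S : Set θ.ord.ToType)
    (hS : #S < θ.ord.cof) : ∃ b : θ.ord.ToType, ∀ s ∈ S, s < b := by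
  have h1 : Order.cof θ.ord.ToType = θ.ord.cof := Ordinal.cof_toType _
  have h2 : ¬ IsCofinal S := by
    intro h
    have := Order.cof_le h
    rw [h1] at this
    exact absurd this (not_le.mpr hS)
  unfold IsCofinal at h2
  push Not at h2
  exact h2

section context

variable {M N₁ N₂ : Type w} [L.Structure M] [L.Structure N₁] [L.Structure N₂]
  {f₁ : M ↪[L] N₁} {a₁ : N₁} {f₂ : M ↪[L] N₂} {a₂ : N₂} {θ : Cardinal.{w}}

theorem exists_stage (hK : K.HasClosures) (hLS : K.LS ≤ θ) (hFA : FewAuts K θ)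
    (hf₁ : K.StrongEmb f₁) :
    ∃ Q₀ : K.Sml M θ, ∀ Q : K.Sml M θ, Q₀.1 ≤ Q.1 →
      ∀ e ∈ Pers (f₁ := f₁) (a₁ := a₁) (f₂ := f₂) (a₂ := a₂) Q,
      ∀ e' ∈ Pers (f₁ := f₁) (a₁ := a₁) (f₂ := f₂) (a₂ := a₂) Q,
      (∀ x : K.clOver f₁ a₁ Q.1, (x : N₁) ∈ K.clOver f₁ a₁ Q₀.1 → e x = e' x) → e = e' := by
  classical
  have hM : K.Mem M := hf₁.mem_left
  have hθ : ℵ₀ ≤ θ := (ls_spec (K := K)).1.trans hLS
  by_contra hcon
  push Not at hcon
  choose B hB e he e' he' hagree hne using hcon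
  have hUB : ∀ S : Set (K.Sml M θ), ∃ R : K.Sml M θ, #S ≤ θ → ∀ Q ∈ S, Q.1 ≤ R.1 := by
    intro S
    by_cases hS : #S ≤ θ
    · obtain ⟨R, hR, _⟩ := exists_ub hM hLS S hS ∅ (by simp)
      exact ⟨R, fun _ => hR⟩
    · obtain ⟨R, _, _⟩ := exists_ub hM hLS (∅ : Set (K.Sml M θ)) (by simp) ∅ (by simp)
      exact ⟨R, fun h => absurd h hS⟩
  choose UB hUB using hUB
  let step : (i : θ.ord.ToType) → ((j : θ.ord.ToType) → j < i → K.Sml M θ) → K.Sml M θ :=
    fun i g => UB (Set.range fun j : Set.Iio i => B (g j.1 j.2))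
  let P : θ.ord.ToType → K.Sml M θ := WellFounded.fix (wellFounded_lt) step
  have hP : ∀ i, P i = UB (Set.range fun j : Set.Iio i => B (P j.1)) := fun i =>
    WellFounded.fix_eq (wellFounded_lt) step i
  have hPle : ∀ i j : θ.ord.ToType, j < i → (B (P j)).1 ≤ (P i).1 := by
    intro i j hji
    rw [hP i]
    apply hUB
    · have h1 : #(Set.Iio i) < θ := by simpa using Cardinal.mk_Iio_lt i
      exact Cardinal.mk_range_le.trans h1.le
    · exact ⟨⟨j, hji⟩, rfl⟩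
  have hPmono : ∀ i j : θ.ord.ToType, i ≤ j → (P i).1 ≤ (P j).1 := by
    intro i j hij
    rcases hij.eq_or_lt with rfl | h
    · exact le_rfl
    · exact (hB (P i)).trans (hPle j i h)
  have hnm : NoMaxOrder θ.ord.ToType := Cardinal.noMaxOrder hθ
  let C : Set (L.Substructure M) := Set.range fun i => (P i).1
  have hne' : Nonempty θ.ord.ToType := by
    obtain ⟨i, _⟩ := exists_index (κ := θ) (ν := 0) (Cardinal.aleph0_pos.trans_le hθ)
    exact ⟨i⟩
  have hCne : C.Nonempty := Set.range_nonempty _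
  have hCch : IsChain (· ≤ ·) C := by
    rintro _ ⟨i, rfl⟩ _ ⟨j, rfl⟩ _
    rcases le_total i j with h | h
    · exact Or.inl (hPmono _ _ h)
    · exact Or.inr (hPmono _ _ h)
  have hCs : K.Strong M (sSup C) := by
    apply K.smooth M C hCne hCch
    rintro _ ⟨i, rfl⟩
    exact (P i).2.1
  have hCc : #(sSup C : L.Substructure M) ≤ θ := by
    have h1 : ((sSup C : L.Substructure M) : Set M) ⊆ ⋃ i : θ.ord.ToType, ((P i).1 : Set M) := by
      intro x hx
      have hx' : x ∈ sSup C := hx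
      rw [Substructure.mem_sSup_of_directedOn hCne hCch.directedOn] at hx'
      obtain ⟨_, ⟨i, rfl⟩, hxi⟩ := hx'
      exact Set.mem_iUnion.mpr ⟨i, hxi⟩
    refine (Cardinal.mk_le_mk_of_subset h1).trans ?_
    apply mk_union_le_of hθ
    · simp
    · intro i
      exact (P i).2.2
  let Qs : K.Sml M θ := ⟨sSup C, hCs, hCc⟩
  have hPQ : ∀ i, (P i).1 ≤ Qs.1 := fun i => le_sSup ⟨i, rfl⟩
  have hBQ : ∀ i, (B (P i)).1 ≤ Qs.1 := by
    intro i
    obtain ⟨j, hj⟩ := exists_gt i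
    exact (hPle j i hj).trans (hPQ j)
  -- extensions to the union
  choose E hE hEx using fun i => (he (P i)).2 Qs (hBQ i)
  choose E' hE' hEx' using fun i => (he' (P i)).2 Qs (hBQ i)
  have hfix : ∀ j, ∀ x : K.clOver f₁ a₁ Qs.1, (x : N₁) ∈ K.clOver f₁ a₁ (P j).1 →
      E' j x = E j x := by
    intro j x hx
    have hxB : (x : N₁) ∈ K.clOver f₁ a₁ (B (P j)).1 := clOver_mono (hB (P j)) hx
    apply Subtype.ext
    rw [← hEx j ⟨x, hxB⟩ x rfl, ← hEx' j ⟨x, hxB⟩ x rfl, hagree (P j) ⟨x, hxB⟩ hx]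
  have hmove : ∀ i, ∃ x : K.clOver f₁ a₁ Qs.1, (x : N₁) ∈ K.clOver f₁ a₁ (B (P i)).1 ∧
      E' i x ≠ E i x := by
    intro i
    by_contra hc
    push Not at hc
    apply hne (P i)
    apply Language.Equiv.ext
    intro y
    have hy : (y : N₁) ∈ K.clOver f₁ a₁ Qs.1 := clOver_mono (hBQ i) y.2
    apply Subtype.ext
    rw [hEx i y ⟨y, hy⟩ rfl, hEx' i y ⟨y, hy⟩ rfl, hc ⟨y, hy⟩ y.2]
  obtain ⟨_, X, hX, hXc, hA⟩ := few_exists (a := a₁) hFA hf₁ Qs.2.1 Qs.2.2
  -- `X` is contained in the closure over some `P j`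
  have h1 : ∀ x : X, ∃ i : θ.ord.ToType, (x : N₁) ∈ K.clOver f₁ a₁ (P i).1 := by
    intro x
    obtain ⟨_, ⟨i, rfl⟩, hi⟩ := exists_mem_clOver_of_chain hK hf₁ C hCne hCch
      (by rintro _ ⟨i, rfl⟩; exact (P i).2.1) (hX x.2)
    exact ⟨i, hi⟩
  choose idx hidx using h1
  obtain ⟨b, hb⟩ := exists_bound_of_lt_cof (Set.range idx)
    (Cardinal.mk_range_le.trans_lt hXc)
  have hXb : X ⊆ K.clOver f₁ a₁ (P b).1 := by
    intro x hx
    exact clOver_mono (hPmono _ _ (hb _ ⟨⟨x, hx⟩, rfl⟩).le) (hidx ⟨x, hx⟩)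
  have hg : ∀ j : Set.Ici b, (E j.1).symm.comp (E' j.1) ∈
      Auts (K.clOver f₁ a₁ Qs.1) (insert a₁ (f₁ '' (Qs.1 : Set M)) ∪ X) := by
    intro j
    apply comp_mem_auts (hE j.1) (hE' j.1)
    intro x hx
    exact hfix j.1 x (clOver_mono (hPmono _ _ j.2) (hXb hx))
  have hlt : ∀ i j : θ.ord.ToType, i < j →
      (E i).symm.comp (E' i) ≠ (E j).symm.comp (E' j) := by
    intro i j hij heq
    obtain ⟨x, hx, hxm⟩ := hmove i
    have h2 : (E i).symm (E' i x) = (E j).symm (E' j x) :=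
      congrArg (fun g : K.clOver f₁ a₁ Qs.1 ≃[L] K.clOver f₁ a₁ Qs.1 => g x) heq
    rw [hfix j x (clOver_mono (hPle j i hij) hx), Language.Equiv.symm_apply_apply] at h2
    apply hxm
    rw [← Language.Equiv.apply_symm_apply (E i) (E' i x), h2]
  have hinj : Function.Injective fun j : Set.Ici b =>
      (⟨(E j.1).symm.comp (E' j.1), hg j⟩ :
        Auts (K.clOver f₁ a₁ Qs.1) (insert a₁ (f₁ '' (Qs.1 : Set M)) ∪ X)) := by
    intro i j hij
    have h2 : (E i.1).symm.comp (E' i.1) = (E j.1).symm.comp (E' j.1) :=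
      congrArg Subtype.val hij
    rcases lt_trichotomy i.1 j.1 with h | h | h
    · exact absurd h2 (hlt _ _ h)
    · exact Subtype.ext h
    · exact absurd h2.symm (hlt _ _ h)
  have h3 : #(Set.Ici b) < θ := (Cardinal.mk_le_of_injective hinj).trans_lt hA
  have h4 : #(Set.Iio b) < θ := by simpa using Cardinal.mk_Iio_lt b
  have h5 : θ ≤ #(Set.Iio b) + #(Set.Ici b) := by
    have h6 : #(Set.univ : Set θ.ord.ToType) = θ := by simp
    rw [← Set.Iio_union_Ici (a := b)] at h6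
    exact h6.symm.le.trans (Cardinal.mk_union_le _ _)
  exact absurd h5 (not_le.mpr (Cardinal.add_lt_of_lt hθ h4 h3))

end context

end Pool.Agent.H81.FA
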